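import Pool.Agent.H33.BDFP.DStmts

attribute [local instance] Pool.Agent.H33.BDFP.NV.instNACG Pool.Agent.H33.BDFP.NV.instModule
  Pool.Agent.H33.BDFP.NV.instNormedSpace Pool.Agent.H33.BDFP.NV.instFD
  Pool.Agent.H33.BDFP.NV.instComplete

/-!
Basic lemmas about liftable elements, for the modules of part D of project BDFP.
-/

open scoped ENNReal NNReal

noncomputable section

namespace Pool.Agent.H24.BDFP

open Pool.Agent.H33.BDFP

variable {B A : Type} [CStarAlgebra B] [CStarAlgebra A] {π : B →⋆ₐ[ℂ] A}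

lemma pi_cont (π : B →⋆ₐ[ℂ] A) : Continuous π :=
  AddMonoidHomClass.continuous_of_bound π 1
    (fun x => by simpa using NonUnitalStarAlgHom.norm_apply_le π x)

lemma lft_mul {a b : A} (ha : Lft π a) (hb : Lft π b) : Lft π (a * b) := by
  obtain ⟨V, hV⟩ := ha
  obtain ⟨W, hW⟩ := hb
  exact ⟨V * W, by rw [Units.val_mul, map_mul, hV, hW]⟩

lemma lft_isUnit {a : A} (ha : Lft π a) : IsUnit a := by
  obtain ⟨V, hV⟩ := ha
  rw [← hV]
  exact (V.isUnit).map π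

lemma lft_unitary {U : B} (hU : U ∈ unitary B) : Lft π (π U) :=
  ⟨⟨U, star U, Unitary.mul_star_self_of_mem hU, Unitary.star_mul_self_of_mem hU⟩, rfl⟩

lemma lft_one_add (hG : Good B A π) {k : A} (hk : ‖k‖ < 1) : Lft π (1 + k) := by
  obtain ⟨K, hK, hK1⟩ := hG.lift k hk
  have h : IsUnit (1 - (-K)) := isUnit_one_sub_of_norm_lt_one (by rwa [norm_neg])
  rw [sub_neg_eq_add] at h
  refine ⟨h.unit, ?_⟩
  rw [IsUnit.unit_spec, map_add, map_one, hK]

lemma lft_inv {a b : A} (ha : Lft π a) (hab : a * b = 1) : Lft π b := by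
  obtain ⟨V, hV⟩ := ha
  refine ⟨V⁻¹, ?_⟩
  have h1 : π ((V⁻¹ : Bˣ) : B) * a = 1 := by
    rw [← hV, ← map_mul, Units.inv_mul, map_one]
  calc π ((V⁻¹ : Bˣ) : B) = π ((V⁻¹ : Bˣ) : B) * (a * b) := by rw [hab, mul_one]
    _ = b := by rw [← mul_assoc, h1, one_mul]

/-- liftable elements form an open set -/
lemma lft_open (hG : Good B A π) {a : A} (ha : Lft π a) :
    ∃ ρ : ℝ, 0 < ρ ∧ ∀ a' : A, ‖a' - a‖ < ρ → Lft π a' := by
  obtain ⟨g, hg⟩ := lft_isUnit ha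
  refine ⟨(‖((g⁻¹ : Aˣ) : A)‖ + 1)⁻¹, by positivity, fun a' h => ?_⟩
  have h1 : a' = a * (1 + ((g⁻¹ : Aˣ) : A) * (a' - a)) := by
    rw [mul_add, mul_one, ← mul_assoc, ← hg, Units.mul_inv, one_mul]
    abel
  rw [h1]
  refine lft_mul ha (lft_one_add hG ?_)
  have h0 : 0 < ‖((g⁻¹ : Aˣ) : A)‖ + 1 := by positivity
  calc ‖((g⁻¹ : Aˣ) : A) * (a' - a)‖ ≤ ‖((g⁻¹ : Aˣ) : A)‖ * ‖a' - a‖ := norm_mul_le _ _
    _ ≤ (‖((g⁻¹ : Aˣ) : A)‖) * (‖((g⁻¹ : Aˣ) : A)‖ + 1)⁻¹ :=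
        mul_le_mul_of_nonneg_left h.le (norm_nonneg _)
    _ < 1 := by
        rw [← div_eq_mul_inv, div_lt_one h0]
        linarith

lemma good_surj (hG : Good B A π) : Function.Surjective π := by
  intro a
  by_cases h : a = 0
  · exact ⟨0, by rw [map_zero, h]⟩
  · have h0 : 0 < ‖a‖ := norm_pos_iff.2 h
    have h1 : ‖((2 * ‖a‖ : ℝ) : ℂ)⁻¹ • a‖ < 1 := by
      rw [norm_smul, norm_inv, Complex.norm_real, Real.norm_of_nonneg (by positivity)]
      rw [mul_inv, mul_assoc, inv_mul_cancel₀ h0.ne']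
      norm_num
    obtain ⟨X, hX, _⟩ := hG.lift _ h1
    refine ⟨((2 * ‖a‖ : ℝ) : ℂ) • X, ?_⟩
    rw [map_smul, hX, smul_smul, mul_inv_cancel₀, one_smul]
    exact_mod_cast (by positivity : (2 * ‖a‖ : ℝ) ≠ 0)

/-- exponentials are liftable -/
lemma lft_exp (hG : Good B A π) (a : A) : Lft π (NormedSpace.exp a) := by
  let _ : NormedAlgebra ℚ B := NormedAlgebra.restrictScalars ℚ ℂ B
  let _ : NormedAlgebra ℚ A := NormedAlgebra.restrictScalars ℚ ℂ A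
  obtain ⟨X, hX⟩ := good_surj hG a
  refine ⟨(NormedSpace.isUnit_exp X).unit, ?_⟩
  rw [IsUnit.unit_spec, ← hX]
  exact NormedSpace.map_exp π (pi_cont π) X

lemma lft_cfc_exp (hG : Good B A π) {x : A} (hx : IsStarNormal x) (L : ℂ → ℂ)
    (hL : ContinuousOn L (spectrum ℂ x)) : Lft π (cfc (fun z => Complex.exp (L z)) x) := by
  have h1 : cfc (fun z => Complex.exp (L z)) x = NormedSpace.exp (cfc L x) := by
    rw [← CFC.complex_exp_eq_normedSpace_exp, ← cfc_comp' _ _ x]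
  rw [h1]
  exact lft_exp hG _

end Pool.Agent.H24.BDFP
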