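import Pool.Agent.H24.BDFP.Punct

attribute [local instance] Pool.Agent.H33.BDFP.NV.instNACG Pool.Agent.H33.BDFP.NV.instModule
  Pool.Agent.H33.BDFP.NV.instNormedSpace Pool.Agent.H33.BDFP.NV.instFD
  Pool.Agent.H33.BDFP.NV.instComplete

/-!
Module EDGE of project BDFP: cutting an edge of the grid at its midpoint.
-/

open scoped ENNReal NNReal

noncomputable section

namespace Pool.Agent.H24.BDFP

open Pool.Agent.H33.BDFP

variable {B A : Type} [CStarAlgebra B] [CStarAlgebra A] {π : B →⋆ₐ[ℂ] A}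

lemma lft_star {a : A} (ha : Lft π a) : Lft π (star a) := by
  obtain ⟨V, hV⟩ := ha
  exact ⟨star V, by rw [Units.coe_star, map_star, hV]⟩

lemma map_cfc' (π : B →⋆ₐ[ℂ] A) (f : ℂ → ℂ) {a : B} (ha : IsStarNormal a)
    (hf : ContinuousOn f (spectrum ℂ a)) : π (cfc f a) = cfc f (π a) := by
  have h2 : IsStarNormal (π a) := ha.map π
  exact StarAlgHom.map_cfc π f a hf (pi_cont π) ha h2

/-- the phase of a liftable element lifts to a unitary -/
lemma lift_phase {b : A} (hb : IsStarNormal b) {φ : ℂ → ℂ}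
    (hφ : ContinuousOn φ (spectrum ℂ b)) (h0 : ∀ z ∈ spectrum ℂ b, φ z ≠ 0)
    (h : Lft π (cfc φ b)) :
    ∃ U ∈ unitary B, π U = cfc (fun z => φ z / ((‖φ z‖ : ℝ) : ℂ)) b := by
  obtain ⟨V, hV⟩ := h
  set P : B := star (V : B) * (V : B) with hP
  have hPs : IsSelfAdjoint P := IsSelfAdjoint.star_mul_self _
  have hPn : IsStarNormal P := hPs.isStarNormal
  have hPu : IsUnit P := by
    rw [hP]
    exact (V.isUnit.star).mul V.isUnit
  have hsp : ∀ z ∈ spectrum ℂ P, z = ((z.re : ℝ) : ℂ) ∧ 0 < z.re := by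
    intro z hz
    have h1 : z = ((z.re : ℝ) : ℂ) := (hPs.mem_spectrum_eq_re hz)
    refine ⟨h1, ?_⟩
    have h2 : z.re ∈ spectrum ℝ P := by
      rw [h1] at hz
      exact spectrum.of_algebraMap_mem ℂ hz
    have h3 : 0 ≤ z.re := spectrum_star_mul_self_nonneg z.re h2
    have h4 : z ≠ 0 := by
      intro hcon
      rw [hcon] at hz
      exact (spectrum.zero_notMem ℂ hPu) hz
    refine lt_of_le_of_ne h3 fun hcon => h4 ?_
    rw [h1, ← hcon, Complex.ofReal_zero]
  set s : ℂ → ℂ := fun z => (((Real.sqrt z.re)⁻¹ : ℝ) : ℂ) with hs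
  have hsc : ContinuousOn s (spectrum ℂ P) := by
    refine Complex.continuous_ofReal.comp_continuousOn ?_
    refine ContinuousOn.inv₀ (Real.continuous_sqrt.comp Complex.continuous_re).continuousOn ?_
    intro z hz
    exact (Real.sqrt_pos.2 (hsp z hz).2).ne'
  set T : B := cfc s P with hT
  have hTs : star T = T := by
    rw [hT, ← cfc_star]
    congr 1
    funext z
    simp only [hs, Complex.star_def, Complex.conj_ofReal]
  have hTPT : T * P * T = 1 := by
    have e1 : T * P = cfc (fun z => s z * z) P := by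
      rw [cfc_mul s (fun z => z) P hsc continuousOn_id, cfc_id' ℂ P]
    rw [e1, hT, ← cfc_mul (fun z => s z * z) s P (hsc.mul continuousOn_id) hsc]
    have e2 : (spectrum ℂ P).EqOn (fun z => s z * z * s z) (fun _ => 1) := by
      intro z hz
      obtain ⟨h1, h2⟩ := hsp z hz
      simp only [hs]
      have h3 : (0 : ℝ) < Real.sqrt z.re := Real.sqrt_pos.2 h2
      have h4 : (((Real.sqrt z.re)⁻¹ : ℝ) : ℂ) * z * (((Real.sqrt z.re)⁻¹ : ℝ) : ℂ) =
          (((Real.sqrt z.re)⁻¹ * z.re * (Real.sqrt z.re)⁻¹ : ℝ) : ℂ) := by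
        conv_lhs => rw [h1]
        push_cast
        rfl
      rw [h4]
      have h5 : (Real.sqrt z.re)⁻¹ * z.re * (Real.sqrt z.re)⁻¹ = 1 := by
        have h6 : z.re = Real.sqrt z.re * Real.sqrt z.re := (Real.mul_self_sqrt h2.le).symm
        conv_lhs => rw [h6]
        rw [Real.sqrt_mul_self h3.le]
        field_simp
      rw [h5, Complex.ofReal_one]
    rw [cfc_congr e2, cfc_const_one ℂ P]
  set U : B := (V : B) * T with hU
  have hUU : star U * U = 1 := by
    rw [hU, star_mul, hTs, mul_assoc, ← mul_assoc (star (V : B)), ← hP, ← mul_assoc, hTPT]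
  have hTu : IsUnit T := by
    refine ⟨⟨T, P * T, by rw [← mul_assoc, hTPT], ?_⟩, rfl⟩
    have hcomm : P * T = T * P := by
      have : Commute (cfc (fun z => z) P) (cfc s P) := cfc_commute_cfc _ _ _
      rw [cfc_id' ℂ P] at this
      exact this
    rw [hcomm, hTPT]
  have hUu : IsUnit U := V.isUnit.mul hTu
  have hUU' : U * star U = 1 := by
    obtain ⟨g, hg⟩ := hUu
    have h1 : star U = ((g⁻¹ : Bˣ) : B) := by
      have h2 : star U * (g : B) = 1 := by rw [hg]; exact hUU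
      calc star U = star U * ((g : B) * ((g⁻¹ : Bˣ) : B)) := by rw [Units.mul_inv, mul_one]
        _ = ((g⁻¹ : Bˣ) : B) := by rw [← mul_assoc, h2, one_mul]
    rw [h1, ← hg, Units.mul_inv]
  refine ⟨U, ?_, ?_⟩
  · rw [Unitary.mem_iff]
    exact ⟨hUU, hUU'⟩
  · have e1 : π P = cfc (fun z => star (φ z) * φ z) b := by
      rw [hP, map_mul, map_star, hV, ← cfc_star, ← cfc_mul (fun z => star (φ z)) φ b
        (continuous_star.comp_continuousOn hφ) hφ]
    have hφ2 : ContinuousOn (fun z => star (φ z) * φ z) (spectrum ℂ b) :=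
      (continuous_star.comp_continuousOn hφ).mul hφ
    have e0 : ∀ z, star (φ z) * φ z = ((‖φ z‖ ^ 2 : ℝ) : ℂ) := by
      intro z
      rw [Complex.star_def, Complex.conj_mul']
      push_cast
      rfl
    have hsc2 : ContinuousOn s ((fun z => star (φ z) * φ z) '' spectrum ℂ b) := by
      refine Complex.continuous_ofReal.comp_continuousOn ?_
      refine ContinuousOn.inv₀ (Real.continuous_sqrt.comp Complex.continuous_re).continuousOn ?_
      rintro _ ⟨z, hz, rfl⟩
      simp only [e0, Complex.ofReal_re]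
      have : 0 < ‖φ z‖ := norm_pos_iff.2 (h0 z hz)
      exact (Real.sqrt_pos.2 (by positivity)).ne'
    have e2 : π T = cfc (fun z => s (star (φ z) * φ z)) b := by
      rw [hT, map_cfc' π s hPn hsc, e1, ← cfc_comp' s (fun z => star (φ z) * φ z) b hsc2 hφ2 hb]
    have hsc3 : ContinuousOn (fun z => s (star (φ z) * φ z)) (spectrum ℂ b) :=
      hsc2.comp hφ2 (Set.mapsTo_image _ _)
    rw [hU, map_mul, hV, e2, ← cfc_mul φ (fun z => s (star (φ z) * φ z)) b hφ hsc3]
    congr 1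
    funext z
    simp only [hs, e0, Complex.ofReal_re]
    rw [Real.sqrt_sq (norm_nonneg _), div_eq_mul_inv]
    push_cast
    rfl

/-! ### the functions on the circle -/

/-- positive on the arc to be removed -/
def ff (ρ : ℝ) (ζ : ℂ) : ℂ := ((max 0 (4 * ρ ^ 2 * (1 - ζ.re) - (1 + ζ.re)) : ℝ) : ℂ)

/-- denominators -/
def dd (ρ : ℝ) (ζ : ℂ) : ℝ := max (1 + ζ.re) (4 * ρ ^ 2 * (1 - ζ.re))

/-- a multiple of `ff` -/
def gg (ρ : ℝ) (ζ : ℂ) : ℂ := (((1 + ζ.re) / dd ρ ζ - 1 : ℝ) : ℂ)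

/-- cutoff -/
def kk (ρ : ℝ) (ζ : ℂ) : ℝ :=
  min 1 (max 0 (16 * ρ ^ 2 * (1 - ζ.re) - (1 + ζ.re)) / (18 * ρ ^ 2))

/-- the coordinate, cut off -/
def hh (ρ : ℝ) (ζ : ℂ) : ℂ := (kk ρ ζ : ℂ) * ⟨0, -ζ.im / (2 * max (1 - ζ.re) 1)⟩

/-- the function with phase `om` -/
def ww (v : ℂ) : ℂ := (v + 1 / 2) * star (v - 1 / 2)

/-- phase -/
def omg (v : ℂ) : ℂ := ww v / ((‖ww v‖ : ℝ) : ℂ)

lemma ww_re (v : ℂ) : (ww v).re = v.re ^ 2 + v.im ^ 2 - 1 / 4 := by
  unfold ww
  rw [Complex.star_def, Complex.mul_re, Complex.conj_re, Complex.conj_im]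
  norm_num [Complex.add_re, Complex.add_im, Complex.sub_re, Complex.sub_im]
  ring

lemma ww_im (v : ℂ) : (ww v).im = -v.im := by
  unfold ww
  rw [Complex.star_def, Complex.mul_im, Complex.conj_re, Complex.conj_im]
  norm_num [Complex.add_re, Complex.add_im, Complex.sub_re, Complex.sub_im]
  ring

lemma dd_pos {ρ : ℝ} (hρ : 0 < ρ) (ζ : ℂ) : 0 < dd ρ ζ := by
  unfold dd
  rcases lt_or_ge 0 (1 + ζ.re) with h | h
  · exact lt_max_of_lt_left h
  · apply lt_max_of_lt_right
    have : 0 < ρ ^ 2 := by positivity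
    nlinarith

lemma dd_cont (ρ : ℝ) : Continuous (dd ρ) := by
  unfold dd
  fun_prop

lemma ff_cont (ρ : ℝ) : Continuous (ff ρ) := by
  unfold ff
  fun_prop

lemma kk_cont (ρ : ℝ) : Continuous (kk ρ) := by
  unfold kk
  fun_prop

lemma gg_cont {ρ : ℝ} (hρ : 0 < ρ) : Continuous (gg ρ) := by
  unfold gg
  have h1 := dd_cont ρ
  have h2 : ∀ ζ, dd ρ ζ ≠ 0 := fun ζ => (dd_pos hρ ζ).ne'
  refine Complex.continuous_ofReal.comp ((Continuous.div (by fun_prop) h1 h2).sub
    continuous_const)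

lemma hh_cont (ρ : ℝ) : Continuous (hh ρ) := by
  unfold hh
  have h1 := kk_cont ρ
  have h2 : Continuous fun ζ : ℂ => -ζ.im / (2 * max (1 - ζ.re) 1) := by
    refine Continuous.div (by fun_prop) (by fun_prop) fun ζ => ?_
    have : 1 ≤ max (1 - ζ.re) 1 := le_max_right _ _
    positivity
  have h3 : Continuous fun ζ : ℂ => (⟨0, -ζ.im / (2 * max (1 - ζ.re) 1)⟩ : ℂ) := by
    have h4 : (fun ζ : ℂ => (⟨0, -ζ.im / (2 * max (1 - ζ.re) 1)⟩ : ℂ)) =
        fun ζ : ℂ => ((-ζ.im / (2 * max (1 - ζ.re) 1) : ℝ) : ℂ) * Complex.I := by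
      funext ζ
      apply Complex.ext
      · rw [Complex.re_ofReal_mul]; simp
      · rw [Complex.im_ofReal_mul]; simp
    rw [h4]
    exact (Complex.continuous_ofReal.comp h2).mul continuous_const
  exact (Complex.continuous_ofReal.comp h1).mul h3

lemma gg_eq {ρ : ℝ} (hρ : 0 < ρ) (ζ : ℂ) : gg ρ ζ = ((-(dd ρ ζ)⁻¹ : ℝ) : ℂ) * ff ρ ζ := by
  unfold gg ff
  have h := dd_pos hρ ζ
  rw [← Complex.ofReal_mul]
  congr 1
  have h2 : max 0 (4 * ρ ^ 2 * (1 - ζ.re) - (1 + ζ.re)) = dd ρ ζ - (1 + ζ.re) := by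
    unfold dd
    rcases le_total (1 + ζ.re) (4 * ρ ^ 2 * (1 - ζ.re)) with h1 | h1
    · rw [max_eq_right h1, max_eq_right (by linarith)]
    · rw [max_eq_left h1, max_eq_left (by linarith), sub_self]
  rw [h2]
  field_simp
  ring

lemma kk_ff {ρ : ℝ} (hρ : 0 < ρ) (hρ2 : ρ ≤ 1 / 4) {ζ : ℂ} (hζ : ‖ζ‖ = 1) :
    (1 - (kk ρ ζ : ℂ)) * ff ρ ζ = 0 := by
  unfold ff
  rcases le_or_gt (4 * ρ ^ 2 * (1 - ζ.re) - (1 + ζ.re)) 0 with h | h
  · rw [max_eq_left h, Complex.ofReal_zero, mul_zero]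
  · have h1 : |ζ.re| ≤ 1 := by rw [← hζ]; exact Complex.abs_re_le_norm ζ
    have h2 := (abs_le.1 h1).1
    have h3 := (abs_le.1 h1).2
    have h4 : 0 < ρ ^ 2 := by positivity
    have h5 : ρ ^ 2 ≤ 1 / 16 := by nlinarith
    have h6 : ζ.re < -(3 / 5) := by nlinarith
    have h7 : kk ρ ζ = 1 := by
      unfold kk
      apply min_eq_left
      rw [le_div_iff₀ (by positivity)]
      refine le_trans ?_ (le_max_right _ _)
      nlinarith
    rw [h7]
    simp

lemma gridS_cases {v : ℂ} (hv : v ∈ gridS) :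
    (v.re = 0 ∧ |v.im| < 1 / 2) ∨ (1 / 4 ≤ v.re ^ 2 + v.im ^ 2 ∧ ww v ≠ 0) := by
  have hne : v ≠ 1 / 2 ∧ v ≠ -(1 / 2) := by
    constructor
    · intro h
      rw [h] at hv
      rcases hv with ⟨k, hk⟩ | ⟨k, hk⟩
      · norm_num at hk
        have : (1 : ℝ) = 2 * k := by linarith
        have h2 : (1 : ℤ) = 2 * k := by exact_mod_cast this
        omega
      · norm_num at hk
        have : (0 : ℝ) = 2 * k + 1 := by linarith
        have h2 : (0 : ℤ) = 2 * k + 1 := by exact_mod_cast this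
        omega
    · intro h
      rw [h] at hv
      rcases hv with ⟨k, hk⟩ | ⟨k, hk⟩
      · norm_num at hk
        have : (-1 : ℝ) = 2 * k := by linarith
        have h2 : (-1 : ℤ) = 2 * k := by exact_mod_cast this
        omega
      · norm_num at hk
        have : (0 : ℝ) = 2 * k + 1 := by linarith
        have h2 : (0 : ℤ) = 2 * k + 1 := by exact_mod_cast this
        omega
  have hw : ww v ≠ 0 := by
    unfold ww
    intro h
    rcases mul_eq_zero.1 h with h | h
    · exact hne.2 (by linear_combination h)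
    · rw [star_eq_zero] at h
      exact hne.1 (by linear_combination h)
  by_cases h : 1 / 4 ≤ v.re ^ 2 + v.im ^ 2
  · exact Or.inr ⟨h, hw⟩
  · push Not at h
    left
    have him : |v.im| < 1 / 2 := by
      rw [← sq_lt_sq₀ (abs_nonneg _) (by norm_num), sq_abs]
      nlinarith [sq_nonneg v.re]
    rcases hv with ⟨k, hk⟩ | ⟨k, hk⟩
    · refine ⟨?_, him⟩
      have h1 : v.re ^ 2 < 1 := by nlinarith [sq_nonneg v.im]
      have h2 : (k : ℝ) ^ 2 < 1 := by rw [← hk]; exact h1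
      have h3 : k ^ 2 < 1 := by exact_mod_cast h2
      have h4 : k = 0 := by nlinarith
      rw [hk, h4, Int.cast_zero]
    · exfalso
      have h1 : |(k : ℝ) + 1 / 2| < 1 / 2 := by rw [← hk]; exact him
      rw [abs_lt] at h1
      have h2 : (-1 : ℝ) < k := by linarith [h1.1]
      have h3 : (k : ℝ) < 0 := by linarith [h1.2]
      have h4 : (-1 : ℤ) < k := by exact_mod_cast h2
      have h5 : k < 0 := by exact_mod_cast h3
      omega

lemma ww_ne {v : ℂ} (hv : v ∈ gridS) : ww v ≠ 0 := by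
  rcases gridS_cases hv with ⟨h1, h2⟩ | ⟨_, h⟩
  · intro h
    have h3 := ww_re v
    rw [h, h1, Complex.zero_re] at h3
    have h4 : v.im ^ 2 < 1 / 4 := by
      have := abs_lt.1 h2
      nlinarith [this.1, this.2]
    nlinarith
  · exact h

/-- the values on the central edge -/
lemma omg_edge {v : ℂ} (h1 : v.re = 0) (h2 : |v.im| < 1 / 2) :
    (omg v).re = (v.im ^ 2 - 1 / 4) / (v.im ^ 2 + 1 / 4) ∧
      (omg v).im = -v.im / (v.im ^ 2 + 1 / 4) := by
  have hn : ‖ww v‖ = v.im ^ 2 + 1 / 4 := by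
    have h3 : ‖ww v‖ ^ 2 = (v.im ^ 2 + 1 / 4) ^ 2 := by
      rw [← Complex.normSq_eq_norm_sq, Complex.normSq_apply, ww_re, ww_im, h1]
      ring
    exact (sq_eq_sq₀ (norm_nonneg _) (by positivity)).1 h3
  unfold omg
  rw [Complex.div_ofReal_re, Complex.div_ofReal_im, ww_re, ww_im, hn, h1]
  constructor
  · ring
  · ring

lemma omg_re_nonneg {v : ℂ} (h : 1 / 4 ≤ v.re ^ 2 + v.im ^ 2) : 0 ≤ (omg v).re := by
  unfold omg
  rw [Complex.div_ofReal_re, ww_re]
  exact div_nonneg (by linarith) (norm_nonneg _)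

lemma omg_norm {v : ℂ} (hv : v ∈ gridS) : ‖omg v‖ = 1 := by
  unfold omg
  have h : 0 < ‖ww v‖ := norm_pos_iff.2 (ww_ne hv)
  rw [norm_div, Complex.norm_real, Real.norm_of_nonneg h.le, div_self h.ne']

lemma omg_re_le {v : ℂ} (hv : v ∈ gridS) : (omg v).re ≤ 1 := by
  rw [← omg_norm hv]; exact Complex.re_le_norm _

lemma kk_zero {ρ : ℝ} (hρ : 0 < ρ) (hρ2 : ρ ≤ 1 / 4) {v : ℂ} (hv : v ∈ gridS)
    (h : 1 / 4 ≤ v.re ^ 2 + v.im ^ 2) : kk ρ (omg v) = 0 := by
  have h1 := omg_re_nonneg h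
  have h2 := omg_re_le hv
  unfold kk
  have h5 : ρ ^ 2 ≤ 1 / 16 := by nlinarith
  have h3 : 16 * ρ ^ 2 * (1 - (omg v).re) - (1 + (omg v).re) ≤ 0 := by nlinarith
  rw [max_eq_left h3, zero_div]
  norm_num

lemma gg_grid {ρ : ℝ} (hρ : 0 < ρ) (hρ2 : ρ ≤ 1 / 4) {v : ℂ} (hv : v ∈ gridS) :
    star v / ((max (‖v‖ ^ 2) (ρ ^ 2) : ℝ) : ℂ) * v = 1 + gg ρ (omg v) := by
  have h5 : ρ ^ 2 ≤ 1 / 16 := by nlinarith
  have hρ0 : 0 < ρ ^ 2 := by positivity
  have e1 : star v / ((max (‖v‖ ^ 2) (ρ ^ 2) : ℝ) : ℂ) * v =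
      ((‖v‖ ^ 2 / max (‖v‖ ^ 2) (ρ ^ 2) : ℝ) : ℂ) := by
    rw [div_mul_eq_mul_div, Complex.star_def, Complex.conj_mul']
    push_cast
    rfl
  have e2 : (1 : ℂ) + gg ρ (omg v) = (((1 + (omg v).re) / dd ρ (omg v) : ℝ) : ℂ) := by
    unfold gg
    push_cast
    ring
  rw [e1, e2]
  congr 1
  have hns : ‖v‖ ^ 2 = v.re ^ 2 + v.im ^ 2 := by
    rw [← Complex.normSq_eq_norm_sq, Complex.normSq_apply]; ring
  rcases gridS_cases hv with ⟨h1, h2⟩ | ⟨h, _⟩
  · obtain ⟨o1, _⟩ := omg_edge h1 h2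
    have hn : 0 < v.im ^ 2 + 1 / 4 := by positivity
    have a1 : 1 + (omg v).re = 2 * v.im ^ 2 / (v.im ^ 2 + 1 / 4) := by
      rw [o1]; field_simp; ring
    have a2 : 1 - (omg v).re = (1 / 2) / (v.im ^ 2 + 1 / 4) := by
      rw [o1]; field_simp; ring
    unfold dd
    rw [a1, a2, hns, h1]
    have a3 : max (2 * v.im ^ 2 / (v.im ^ 2 + 1 / 4))
        (4 * ρ ^ 2 * (1 / 2 / (v.im ^ 2 + 1 / 4))) =
        2 / (v.im ^ 2 + 1 / 4) * max (v.im ^ 2) (ρ ^ 2) := by
      rw [mul_max_of_nonneg _ _ (by positivity)]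
      congr 1
      · ring
      · ring
    rw [a3]
    have a4 : 0 < max (v.im ^ 2) (ρ ^ 2) := lt_max_of_lt_right hρ0
    have a5 : (0 : ℝ) ^ 2 + v.im ^ 2 = v.im ^ 2 := by ring
    rw [a5]
    field_simp
  · have h1 := omg_re_nonneg h
    have h2 := omg_re_le hv
    have a1 : dd ρ (omg v) = 1 + (omg v).re := by
      unfold dd
      apply max_eq_left
      nlinarith
    have a2 : max (‖v‖ ^ 2) (ρ ^ 2) = ‖v‖ ^ 2 := by
      apply max_eq_left
      rw [hns]
      linarith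
    have a3 : ‖v‖ ^ 2 ≠ 0 := by rw [hns]; linarith
    have a4 : 1 + (omg v).re ≠ 0 := by linarith
    rw [a1, a2, div_self a3, div_self a4]

lemma hh_grid {ρ : ℝ} (hρ : 0 < ρ) (hρ2 : ρ ≤ 1 / 4) {v : ℂ} (hv : v ∈ gridS) :
    v * (kk ρ (omg v) : ℂ) = hh ρ (omg v) ∧ ‖hh ρ (omg v)‖ ≤ 2 * ρ := by
  have hρ0 : 0 < ρ ^ 2 := by positivity
  rcases gridS_cases hv with ⟨h1, h2⟩ | ⟨h, _⟩
  · obtain ⟨o1, o2⟩ := omg_edge h1 h2
    have hn : 0 < v.im ^ 2 + 1 / 4 := by positivity
    have hy2 : v.im ^ 2 < 1 / 4 := by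
      have := abs_lt.1 h2
      nlinarith [this.1, this.2]
    have a1 : 1 + (omg v).re = 2 * v.im ^ 2 / (v.im ^ 2 + 1 / 4) := by
      rw [o1]; field_simp; ring
    have a2 : 1 - (omg v).re = (1 / 2) / (v.im ^ 2 + 1 / 4) := by
      rw [o1]; field_simp; ring
    have a3 : (1 : ℝ) ≤ 1 - (omg v).re := by
      rw [a2, le_div_iff₀ hn]; linarith
    have a4 : (⟨0, -(omg v).im / (2 * max (1 - (omg v).re) 1)⟩ : ℂ) = v := by
      apply Complex.ext
      · exact h1.symm
      · change -(omg v).im / (2 * max (1 - (omg v).re) 1) = v.im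
        rw [max_eq_left a3, a2, o2]
        field_simp
    have a5 : hh ρ (omg v) = (kk ρ (omg v) : ℂ) * v := by
      unfold hh
      rw [a4]
    refine ⟨by rw [a5, mul_comm], ?_⟩
    rw [a5, norm_mul, Complex.norm_real]
    have hk0 : 0 ≤ kk ρ (omg v) := by
      unfold kk
      exact le_min zero_le_one (div_nonneg (le_max_left _ _) (by positivity))
    have hk1 : kk ρ (omg v) ≤ 1 := min_le_left _ _
    rw [Real.norm_of_nonneg hk0]
    have hvn : ‖v‖ = |v.im| := by
      rw [← Complex.re_add_im v, h1]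
      simp
    rw [hvn]
    rcases le_or_gt |v.im| (2 * ρ) with h3 | h3
    · nlinarith [abs_nonneg v.im]
    · have h4 : kk ρ (omg v) = 0 := by
        unfold kk
        have h5 : 4 * ρ ^ 2 < v.im ^ 2 := by
          rw [← sq_abs v.im]
          nlinarith
        have h6 : 16 * ρ ^ 2 * (1 - (omg v).re) - (1 + (omg v).re) ≤ 0 := by
          rw [a1, a2]
          have : 16 * ρ ^ 2 * (1 / 2 / (v.im ^ 2 + 1 / 4)) - 2 * v.im ^ 2 / (v.im ^ 2 + 1 / 4) =
              (8 * ρ ^ 2 - 2 * v.im ^ 2) / (v.im ^ 2 + 1 / 4) := by ring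
          rw [this]
          exact div_nonpos_of_nonpos_of_nonneg (by linarith) hn.le
        rw [max_eq_left h6, zero_div]
        norm_num
      rw [h4, zero_mul]
      positivity
  · have h1 := kk_zero hρ hρ2 hv h
    have h2 : hh ρ (omg v) = 0 := by unfold hh; rw [h1]; simp
    rw [h2, h1]
    simp [hρ.le]

/-- Module EDGE of the project BDFP. -/
theorem edge : EdgeStmt := by
  intro B A _ _ π hG b hb hsp hl1 hl2 ε hε
  obtain ⟨ρ, hρ, hρ2, hρε⟩ : ∃ ρ : ℝ, 0 < ρ ∧ ρ ≤ 1 / 4 ∧ 4 * ρ ≤ ε :=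
    ⟨min (1 / 4) (ε / 4), lt_min (by norm_num) (by positivity), min_le_left _ _, by
      have := min_le_right (1 / 4 : ℝ) (ε / 4)
      linarith⟩
  -- the phase
  have hwc : Continuous ww := by
    unfold ww
    fun_prop
  have hwb : cfc ww b = (b + algebraMap ℂ A (1 / 2)) * star (b - algebraMap ℂ A (1 / 2)) := by
    have e1 : cfc ww b = cfc (fun v : ℂ => v + 1 / 2) b * cfc (fun v : ℂ => star (v - 1 / 2)) b :=
      cfc_mul (fun v : ℂ => v + 1 / 2) (fun v : ℂ => star (v - 1 / 2)) b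
        (by fun_prop) (by fun_prop)
    have e2 : cfc (fun v : ℂ => v + 1 / 2) b = b + algebraMap ℂ A (1 / 2) := by
      rw [cfc_add_const (1 / 2) (fun v : ℂ => v) b (by fun_prop) hb, cfc_id' ℂ b]
    have e3 : cfc (fun v : ℂ => v - 1 / 2) b = b - algebraMap ℂ A (1 / 2) := by
      rw [cfc_sub (fun v : ℂ => v) (fun _ => 1 / 2) b (by fun_prop) (by fun_prop), cfc_id' ℂ b,
        cfc_const (1 / 2 : ℂ) b hb]
    rw [e1, e2, cfc_star (fun v : ℂ => v - 1 / 2) b, e3]
  obtain ⟨U, hU, hUb⟩ := lift_phase hb (φ := ww) hwc.continuousOn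
    (fun z hz => ww_ne (hsp hz)) (by rw [hwb]; exact lft_mul hl2 (lft_star hl1))
  change π U = cfc omg b at hUb
  have hωc : ContinuousOn omg (spectrum ℂ b) := by
    refine hwc.continuousOn.div (Complex.continuous_ofReal.comp hwc.norm).continuousOn ?_
    intro z hz
    have : 0 < ‖ww z‖ := norm_pos_iff.2 (ww_ne (hsp hz))
    exact_mod_cast this.ne'
  have hUn : IsStarNormal U := by
    rw [Unitary.mem_iff] at hU
    exact ⟨by rw [commute_iff_eq, hU.1, hU.2]⟩
  have hUsp : ∀ z ∈ spectrum ℂ U, ‖z‖ = 1 := by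
    intro z hz
    have := Unitary.spectrum_subset_circle (𝕜 := ℂ) (⟨U, hU⟩ : unitary B) hz
    simpa using this
  -- the range projection
  have hff := ff_cont ρ
  have hkk := kk_cont ρ
  have hkc : Continuous fun ζ => ((kk ρ ζ : ℝ) : ℂ) := Complex.continuous_ofReal.comp hkk
  have hhc := hh_cont ρ
  have hgc := gg_cont hρ
  set F : B := cfc (ff ρ) U with hF
  have hFs : star F = F := by
    rw [hF, ← cfc_star]
    congr 1
    funext z
    unfold ff
    rw [Complex.star_def, Complex.conj_ofReal]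
  obtain ⟨Q, hQ, hQF, hQZ⟩ := hG.rickart F
  have hQs : star Q = Q := hQ.isSelfAdjoint
  have hQQ : Q * Q = Q := hQ.isIdempotentElem
  have hFQ : F * Q = F := by
    have := congrArg star hQF
    rwa [star_mul, hFs, hQs] at this
  have hUF : U * F = F * U := by
    have : Commute (cfc (fun z => z) U) (cfc (ff ρ) U) := cfc_commute_cfc _ _ _
    rw [cfc_id' ℂ U] at this
    exact this
  have hUF' : star U * F = F * star U := by
    have := congrArg star hUF
    rw [star_mul, star_mul, hFs] at this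
    exact this.symm
  have hUQ1 : U * Q = Q * U * Q := by
    have h1 : (1 - Q) * U * F = 0 := by
      rw [mul_assoc, hUF, ← mul_assoc, sub_mul, one_mul, hQF, sub_self, zero_mul]
    have h2 := hQZ _ h1
    rw [sub_mul, one_mul, sub_mul] at h2
    exact sub_eq_zero.1 h2
  have hUQ2 : Q * U = Q * U * Q := by
    have h1 : (1 - Q) * star U * F = 0 := by
      rw [mul_assoc, hUF', ← mul_assoc, sub_mul, one_mul, hQF, sub_self, zero_mul]
    have h2 := hQZ _ h1
    rw [sub_mul, one_mul, sub_mul] at h2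
    have h3 := congrArg star (sub_eq_zero.1 h2)
    rw [star_mul, star_mul, star_mul, star_star, hQs, ← mul_assoc] at h3
    exact h3
  have hUQ : U * Q = Q * U := hUQ1.trans hUQ2.symm
  have hUQ' : star U * Q = Q * star U := by
    have := congrArg star hUQ
    rw [star_mul, star_mul, hQs] at this
    exact this.symm
  have hKQ : cfc (fun ζ => ((kk ρ ζ : ℝ) : ℂ)) U * Q = Q := by
    have h1 : (1 - cfc (fun ζ => ((kk ρ ζ : ℝ) : ℂ)) U) * F = 0 := by
      have e1 : (1 - cfc (fun ζ => ((kk ρ ζ : ℝ) : ℂ)) U) =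
          cfc (fun ζ => 1 - ((kk ρ ζ : ℝ) : ℂ)) U := by
        rw [cfc_sub (fun _ => (1 : ℂ)) (fun ζ => ((kk ρ ζ : ℝ) : ℂ)) U (by fun_prop)
          hkc.continuousOn, cfc_const_one ℂ U]
      rw [e1, hF, ← cfc_mul (fun ζ => 1 - ((kk ρ ζ : ℝ) : ℂ)) (ff ρ) U
        (by fun_prop) hff.continuousOn]
      have e2 : (spectrum ℂ U).EqOn (fun ζ => (1 - ((kk ρ ζ : ℝ) : ℂ)) * ff ρ ζ) (fun _ => 0) :=
        fun ζ hζ => kk_ff hρ hρ2 (hUsp ζ hζ)
      rw [cfc_congr e2, cfc_const_zero ℂ U]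
    have h2 := hQZ _ h1
    rw [sub_mul, one_mul] at h2
    exact (sub_eq_zero.1 h2).symm
  have hGQ : cfc (gg ρ) U * (1 - Q) = 0 := by
    have e1 : gg ρ = fun ζ => ((-(dd ρ ζ)⁻¹ : ℝ) : ℂ) * ff ρ ζ := funext fun ζ => gg_eq hρ ζ
    have hdc : Continuous fun ζ => ((-(dd ρ ζ)⁻¹ : ℝ) : ℂ) :=
      Complex.continuous_ofReal.comp (((dd_cont ρ).inv₀ fun ζ => (dd_pos hρ ζ).ne').neg)
    rw [e1, cfc_mul (fun ζ => ((-(dd ρ ζ)⁻¹ : ℝ) : ℂ)) (ff ρ) U hdc.continuousOn
      hff.continuousOn, mul_assoc, ← hF, mul_sub, mul_one, hFQ, sub_self, mul_zero]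
  -- images in the quotient
  set u : A := π U with hu
  set q : A := π Q with hq
  have hun : IsStarNormal u := hUn.map π
  have hqs : star q = q := by rw [hq, ← map_star, hQs]
  have hqq : q * q = q := by rw [hq, ← map_mul, hQQ]
  have huq : Commute u q := by
    change u * q = q * u
    rw [hu, hq, ← map_mul, ← map_mul, hUQ]
  have huq' : Commute (star u) q := by
    change star u * q = q * star u
    rw [hu, hq, ← map_star, ← map_mul, ← map_mul, hUQ']
  have hkq : cfc (fun v => ((kk ρ (omg v) : ℝ) : ℂ)) b * q = q := by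
    have e1 : cfc (fun v => ((kk ρ (omg v) : ℝ) : ℂ)) b = π (cfc (fun ζ => ((kk ρ ζ : ℝ) : ℂ)) U) := by
      rw [map_cfc' π _ hUn hkc.continuousOn, ← hu, hUb,
        ← cfc_comp' (fun ζ => ((kk ρ ζ : ℝ) : ℂ)) omg b hkc.continuousOn hωc hb]
    rw [e1, hq, ← map_mul, hKQ]
  have hgq : cfc (fun v => gg ρ (omg v)) b * (1 - q) = 0 := by
    have e1 : cfc (fun v => gg ρ (omg v)) b = π (cfc (gg ρ) U) := by
      rw [map_cfc' π _ hUn hgc.continuousOn, ← hu, hUb,
        ← cfc_comp' (gg ρ) omg b hgc.continuousOn hωc hb]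
    rw [e1, hq, ← map_one π, ← map_sub, ← map_mul, hGQ, map_zero]
  have hhu : cfc (fun v => hh ρ (omg v)) b = cfc (hh ρ) u := by
    rw [hUb, ← cfc_comp' (hh ρ) omg b hhc.continuousOn hωc hb]
  have hhq : Commute (cfc (hh ρ) u) q := Commute.cfc huq huq' _
  have hkoc : ContinuousOn (fun v => ((kk ρ (omg v) : ℝ) : ℂ)) (spectrum ℂ b) :=
    hkc.comp_continuousOn hωc
  have hbq1 : b * q = cfc (hh ρ) u * q := by
    have e1 : b * cfc (fun v => ((kk ρ (omg v) : ℝ) : ℂ)) b = cfc (fun v => hh ρ (omg v)) b := by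
      have e2 : cfc (fun v => v * ((kk ρ (omg v) : ℝ) : ℂ)) b =
          b * cfc (fun v => ((kk ρ (omg v) : ℝ) : ℂ)) b := by
        rw [cfc_mul (fun v => v) (fun v => ((kk ρ (omg v) : ℝ) : ℂ)) b continuousOn_id hkoc,
          cfc_id' ℂ b]
      rw [← e2]
      exact cfc_congr fun v hv => (hh_grid hρ hρ2 (hsp hv)).1
    rw [← hhu, ← e1, mul_assoc, hkq]
  have hbq2 : star b * q = star (cfc (hh ρ) u) * q := by
    have e1 : star b * cfc (fun v => ((kk ρ (omg v) : ℝ) : ℂ)) b =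
        star (cfc (fun v => hh ρ (omg v)) b) := by
      have e2 : cfc (fun v => star v * ((kk ρ (omg v) : ℝ) : ℂ)) b =
          star b * cfc (fun v => ((kk ρ (omg v) : ℝ) : ℂ)) b := by
        rw [cfc_mul (fun v => star v) (fun v => ((kk ρ (omg v) : ℝ) : ℂ)) b
          continuous_star.continuousOn hkoc, cfc_star_id b]
      rw [← e2, ← cfc_star]
      refine cfc_congr fun v hv => ?_
      change star v * ((kk ρ (omg v) : ℝ) : ℂ) = star (hh ρ (omg v))
      rw [← (hh_grid hρ hρ2 (hsp hv)).1, star_mul, Complex.star_def, Complex.conj_ofReal, mul_comm]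
    rw [← hhu, ← e1, mul_assoc, hkq]
  have hqb : q * b = q * cfc (hh ρ) u := by
    have := congrArg star hbq2
    rwa [star_mul, star_mul, star_star, star_star, hqs] at this
  have hbq : Commute b q := by
    change b * q = q * b
    rw [hbq1, hqb]
    exact hhq
  have hbq' : Commute (star b) q := by
    have := congrArg star hbq.eq
    rw [star_mul, star_mul, hqs] at this
    exact this.symm
  have hqn : ‖q‖ ≤ 1 := by
    have h1 : ‖q‖ * ‖q‖ = ‖q‖ := by
      have := CStarRing.norm_star_mul_self (x := q)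
      rw [hqs, hqq] at this
      exact this.symm
    rcases eq_or_ne ‖q‖ 0 with h | h
    · rw [h]; exact zero_le_one
    · exact (mul_left_cancel₀ h (h1.trans (mul_one _).symm)).le
  have hbqn : ‖b * q‖ ≤ 2 * ρ := by
    rw [hbq1]
    have h1 : ‖cfc (hh ρ) u‖ ≤ 2 * ρ := by
      rw [← hhu]
      exact norm_cfc_le (by positivity) fun v hv => (hh_grid hρ hρ2 (hsp hv)).2
    calc ‖cfc (hh ρ) u * q‖ ≤ ‖cfc (hh ρ) u‖ * ‖q‖ := norm_mul_le _ _
      _ ≤ 2 * ρ * 1 := mul_le_mul h1 hqn (norm_nonneg _) (by positivity)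
      _ = 2 * ρ := mul_one _
  -- the new element
  set c : ℂ := ρ * Complex.I with hc
  have hcn : ‖c‖ = ρ := by
    rw [hc, norm_mul, Complex.norm_real, Complex.norm_I, mul_one, Real.norm_of_nonneg hρ.le]
  -- invertibility
  have hinv : ∀ (l : ℂ) (R : A), c - l ≠ 0 → Commute R q →
      R * (b - algebraMap ℂ A l) * (1 - q) = 1 - q → (b - algebraMap ℂ A l) * R * (1 - q) = 1 - q →
      l ∉ spectrum ℂ (b * (1 - q) + c • q) := by
    intro l R hcl hRq h1 h2
    rw [spectrum.notMem_iff]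
    have hqq1 : q * (1 - q) = 0 := by rw [mul_sub, mul_one, hqq, sub_self]
    have hqq2 : (1 - q) * q = 0 := by rw [sub_mul, one_mul, hqq, sub_self]
    have hqq3 : (1 - q) * (1 - q) = 1 - q := by rw [mul_sub, mul_one, hqq2, sub_zero]
    have hRq1 : R * (1 - q) = (1 - q) * R := by rw [mul_sub, sub_mul, hRq.eq, mul_one, one_mul]
    set y := b - algebraMap ℂ A l with hy
    have hyq : y * (1 - q) = (1 - q) * y := by
      rw [hy, mul_sub, mul_one, sub_mul (1 : A), one_mul, sub_mul b, mul_sub q, hbq.eq,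
        Algebra.commutes l q]
    have e1 : b * (1 - q) + c • q - algebraMap ℂ A l = y * (1 - q) + (c - l) • q := by
      have e2 : algebraMap ℂ A l = algebraMap ℂ A l * (1 - q) + l • q := by
        rw [Algebra.smul_def, ← mul_add, sub_add_cancel, mul_one]
      conv_lhs => rw [e2]
      rw [hy, sub_mul, sub_smul]
      abel
    have e3 : IsUnit (y * (1 - q) + (c - l) • q) := by
      refine ⟨⟨y * (1 - q) + (c - l) • q, R * (1 - q) + (c - l)⁻¹ • q, ?_, ?_⟩, rfl⟩
      · rw [mul_add, add_mul, add_mul]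
        have a1 : y * (1 - q) * (R * (1 - q)) = 1 - q := by
          rw [mul_assoc, ← mul_assoc (1 - q) R, ← hRq1, mul_assoc R, hqq3, ← mul_assoc, h2]
        have a2 : (c - l) • q * (R * (1 - q)) = 0 := by
          rw [smul_mul_assoc, hRq1, ← mul_assoc, hqq1, zero_mul, smul_zero]
        have a3 : y * (1 - q) * (c - l)⁻¹ • q = 0 := by
          rw [mul_smul_comm, mul_assoc, hqq2, mul_zero, smul_zero]
        have a4 : (c - l) • q * (c - l)⁻¹ • q = q := by
          rw [smul_mul_assoc, mul_smul_comm, smul_smul, mul_inv_cancel₀ hcl, one_smul, hqq]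
        rw [a1, a2, a3, a4]
        abel
      · rw [mul_add, add_mul, add_mul]
        have a1 : R * (1 - q) * (y * (1 - q)) = 1 - q := by
          rw [mul_assoc, ← mul_assoc (1 - q) y, ← hyq, mul_assoc y, hqq3, ← mul_assoc, h1]
        have a2 : (c - l)⁻¹ • q * (y * (1 - q)) = 0 := by
          rw [smul_mul_assoc, hyq, ← mul_assoc, hqq1, zero_mul, smul_zero]
        have a3 : R * (1 - q) * (c - l) • q = 0 := by
          rw [mul_smul_comm, mul_assoc, hqq2, mul_zero, smul_zero]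
        have a4 : (c - l)⁻¹ • q * (c - l) • q = q := by
          rw [smul_mul_assoc, mul_smul_comm, smul_smul, inv_mul_cancel₀ hcl, one_smul, hqq]
        rw [a1, a2, a3, a4]
        abel
    rw [← e1] at e3
    have := e3.neg
    rwa [neg_sub] at this
  refine ⟨b * (1 - q) + c • q, ?_, ?_, ?_, ?_⟩
  · -- normal
    refine ⟨?_⟩
    have hs : star (b * (1 - q) + c • q) = (1 - q) * star b + star c • q := by
      rw [star_add, star_mul, star_sub, star_one, hqs, star_smul, hqs]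
    rw [hs]
    have hcq1 : Commute q (1 - q) := (Commute.one_right q).sub_right (Commute.refl q)
    have cb : Commute b (1 - q) := (Commute.one_right b).sub_right hbq
    have cb' : Commute (star b) (1 - q) := (Commute.one_right _).sub_right hbq'
    have c1 : Commute ((1 - q) * star b + star c • q) b :=
      (Commute.mul_left cb.symm hb.star_comm_self).add_left (hbq.symm.smul_left _)
    have c2 : Commute ((1 - q) * star b + star c • q) q :=
      (Commute.mul_left hcq1.symm hbq').add_left ((Commute.refl q).smul_left _)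
    exact (Commute.mul_right c1 ((Commute.one_right _).sub_right c2)).add_right (c2.smul_right _)
  · -- norm
    have e1 : b * (1 - q) + c • q - b = c • q - b * q := by
      rw [mul_sub, mul_one]; abel
    rw [e1]
    calc ‖c • q - b * q‖ ≤ ‖c • q‖ + ‖b * q‖ := norm_sub_le _ _
      _ ≤ ρ * 1 + 2 * ρ := by
          refine add_le_add ?_ hbqn
          rw [norm_smul, hcn]
          exact mul_le_mul_of_nonneg_left hqn hρ.le
      _ ≤ ε := by linarith
  · -- zero
    have hgoc : Continuous fun v : ℂ => star v / ((max (‖v‖ ^ 2) (ρ ^ 2) : ℝ) : ℂ) := by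
      refine Continuous.div continuous_star (by fun_prop) fun v => ?_
      have : 0 < max (‖v‖ ^ 2) (ρ ^ 2) := lt_max_of_lt_right (by positivity)
      exact_mod_cast this.ne'
    have hggo : ContinuousOn (fun v => gg ρ (omg v)) (spectrum ℂ b) := hgc.comp_continuousOn hωc
    set R : A := cfc (fun v : ℂ => star v / ((max (‖v‖ ^ 2) (ρ ^ 2) : ℝ) : ℂ)) b with hR
    have e1 : R * b = 1 + cfc (fun v => gg ρ (omg v)) b := by
      have e2 : R * b = cfc (fun v : ℂ => star v / ((max (‖v‖ ^ 2) (ρ ^ 2) : ℝ) : ℂ) * v) b := by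
        rw [cfc_mul (fun v : ℂ => star v / ((max (‖v‖ ^ 2) (ρ ^ 2) : ℝ) : ℂ)) (fun v => v) b
          hgoc.continuousOn continuousOn_id, cfc_id' ℂ b]
      have e3 : (spectrum ℂ b).EqOn
          (fun v : ℂ => star v / ((max (‖v‖ ^ 2) (ρ ^ 2) : ℝ) : ℂ) * v)
          (fun v => 1 + gg ρ (omg v)) := fun v hv => gg_grid hρ hρ2 (hsp hv)
      rw [e2, cfc_congr e3, cfc_const_add 1 (fun v => gg ρ (omg v)) b hggo hb, map_one]
    have hRb : R * b = b * R := by
      have : Commute (cfc (fun v : ℂ => star v / ((max (‖v‖ ^ 2) (ρ ^ 2) : ℝ) : ℂ)) b)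
        (cfc (fun z => z) b) := cfc_commute_cfc _ _ _
      rw [cfc_id' ℂ b] at this
      exact this
    have hRq : Commute R q := Commute.cfc hbq hbq' _
    refine hinv 0 R ?_ hRq ?_ ?_
    · rw [sub_zero]
      intro h
      rw [h, norm_zero] at hcn
      linarith
    · rw [map_zero, sub_zero, e1, add_mul, one_mul, hgq, add_zero]
    · rw [map_zero, sub_zero, ← hRb, e1, add_mul, one_mul, hgq, add_zero]
  · intro l hl
    by_contra hcon
    rw [Set.mem_union, not_or] at hcon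
    obtain ⟨h1, h2⟩ := hcon
    rw [spectrum.notMem_iff] at h1
    obtain ⟨g, hg⟩ := h1
    have hgb : b - algebraMap ℂ A l = -(g : A) := by rw [hg]; abel
    have hgq2 : Commute ((g : A)) q := by
      rw [hg]
      exact (Algebra.commute_algebraMap_left l q).sub_left hbq
    have hgq3 : Commute ((g⁻¹ : Aˣ) : A) q := by
      exact Commute.units_inv_left hgq2
    refine hinv l (-((g⁻¹ : Aˣ) : A)) ?_ hgq3.neg_left ?_ ?_ hl
    · intro h
      apply h2
      have : l = c := by linear_combination -h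
      rw [this, hc]
      refine ⟨by simp, ?_⟩
      rw [Complex.im_ofReal_mul, Complex.I_im, mul_one, abs_of_pos hρ]
      linarith
    · rw [hgb, neg_mul_neg, Units.inv_mul, one_mul]
    · rw [hgb, neg_mul_neg, Units.mul_inv, one_mul]

end Pool.Agent.H24.BDFP
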