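import Pool.Agent.H24.BDFP.Basic

attribute [local instance] Pool.Agent.H33.BDFP.NV.instNACG Pool.Agent.H33.BDFP.NV.instModule
  Pool.Agent.H33.BDFP.NV.instNormedSpace Pool.Agent.H33.BDFP.NV.instFD
  Pool.Agent.H33.BDFP.NV.instComplete

/-!
Module PUNCT of project BDFP: pushing the spectrum away from finitely many points.
-/

open scoped ENNReal NNReal

noncomputable section

namespace Pool.Agent.H24.BDFP

open Pool.Agent.H33.BDFP

variable {B A : Type} [CStarAlgebra B] [CStarAlgebra A] {π : B →⋆ₐ[ℂ] A}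

/-- `max ‖z‖ δ` -/
def rf (δ : ℝ) (z : ℂ) : ℂ := ((max ‖z‖ δ : ℝ) : ℂ)

/-- `z / max ‖z‖ δ` -/
def wf (δ : ℝ) (z : ℂ) : ℂ := z / rf δ z

lemma rf_cont (δ : ℝ) : Continuous (rf δ) := by
  unfold rf
  fun_prop

lemma rf_ne {δ : ℝ} (hδ : 0 < δ) (z : ℂ) : rf δ z ≠ 0 := by
  unfold rf
  have : 0 < max ‖z‖ δ := lt_max_of_lt_right hδ
  exact_mod_cast this.ne'

lemma wf_cont {δ : ℝ} (hδ : 0 < δ) : Continuous (wf δ) :=
  continuous_id.div (rf_cont δ) (rf_ne hδ)

lemma wf_mul_rf {δ : ℝ} (hδ : 0 < δ) (z : ℂ) : wf δ z * rf δ z = z := by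
  unfold wf
  exact div_mul_cancel₀ z (rf_ne hδ z)

lemma norm_wf_le {δ : ℝ} (hδ : 0 < δ) (z : ℂ) : ‖wf δ z‖ ≤ 1 := by
  unfold wf rf
  have : 0 < max ‖z‖ δ := lt_max_of_lt_right hδ
  rw [norm_div, Complex.norm_real, Real.norm_of_nonneg this.le, div_le_one this]
  exact le_max_left _ _

lemma norm_wf_eq {δ : ℝ} (hδ : 0 < δ) {z : ℂ} (hz : δ < ‖z‖) : ‖wf δ z‖ = 1 := by
  unfold wf rf
  rw [max_eq_left hz.le, norm_div, Complex.norm_real, Real.norm_of_nonneg (norm_nonneg _)]
  exact div_self (by linarith)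

/-- `u` acts as the direction of `y` away from `0` -/
def Pol (y u : A) (δ : ℝ) : Prop :=
  ∀ f : ℂ → ℂ, Continuous f → (∀ z : ℂ, ‖z‖ ≤ δ → f z = 0) →
    u * cfc f y = cfc (fun z => wf δ z * f z) y ∧ cfc f y * u = cfc (fun z => wf δ z * f z) y

lemma exists_pol (hG : Good B A π) {y : A} (hy : IsStarNormal y) (hy0 : ¬ IsUnit y) {δ : ℝ}
    (hδ : 0 < δ) : ∃ U ∈ unitary B, Pol y (π U) δ := by
  obtain ⟨U, hU, h⟩ := hG.polar y hy hy0 δ hδ
  have hl : ∀ f : ℂ → ℂ, Continuous f → (∀ z : ℂ, ‖z‖ ≤ δ → f z = 0) →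
      π U * cfc f y = cfc (fun z => wf δ z * f z) y := by
    intro f hf hf0
    have h1 := h (fun z => f z / rf δ z) (hf.div (rf_cont δ) (rf_ne hδ))
      (fun z hz => by rw [hf0 z hz, zero_div])
    have h2 : (fun z : ℂ => ((‖z‖ : ℝ) : ℂ) * (f z / rf δ z)) = f := by
      funext z
      rcases le_or_gt ‖z‖ δ with hz | hz
      · rw [hf0 z hz, zero_div, mul_zero]
      · have : rf δ z = ((‖z‖ : ℝ) : ℂ) := by unfold rf; rw [max_eq_left hz.le]
        rw [this, mul_div_cancel₀]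
        rw [← this]
        exact rf_ne hδ z
    have h3 : (fun z : ℂ => z * (f z / rf δ z)) = fun z => wf δ z * f z := by
      funext z
      unfold wf
      ring
    rw [h2, h3] at h1
    exact h1.symm
  refine ⟨U, hU, fun f hf hf0 => ⟨hl f hf hf0, ?_⟩⟩
  set u := π U with hu
  have huu : star u * u = 1 := by
    rw [hu, ← map_star, ← map_mul, Unitary.star_mul_self_of_mem hU, map_one]
  have hw := wf_cont hδ
  have h4 := hl (fun z => star (wf δ z * f z)) (by fun_prop)
    (fun z hz => by rw [hf0 z hz, mul_zero, star_zero])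
  have h5 := congrArg star h4
  rw [star_mul, cfc_star, star_star, ← cfc_star] at h5
  have h6 : (fun z => star (wf δ z * star (wf δ z * f z))) = f := by
    funext z
    rcases le_or_gt ‖z‖ δ with hz | hz
    · rw [hf0 z hz]; simp
    · have h7 : star (wf δ z) * wf δ z = 1 := by
        have := norm_wf_eq hδ hz
        rw [Complex.star_def, Complex.conj_mul', this]
        norm_num
      rw [star_mul, star_star]
      calc wf δ z * f z * star (wf δ z) = (star (wf δ z) * wf δ z) * f z := by ring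
        _ = f z := by rw [h7, one_mul]
  rw [h6] at h5
  rw [← h5, mul_assoc, huu, mul_one]

/-- the push out -/
lemma push {y u : A} (hy : IsStarNormal y) (hu : u ∈ unitary A) {δ : ℝ} (hδ : 0 < δ)
    (hP : Pol y u δ) :
    IsStarNormal (u * cfc (rf δ) y) ∧ ‖u * cfc (rf δ) y - y‖ ≤ 2 * δ ∧
      cfc (fun z => z - δ * wf δ z) (u * cfc (rf δ) y) = cfc (fun z => z - δ * wf δ z) y := by
  have huu : star u * u = 1 := Unitary.star_mul_self_of_mem hu
  have huu' : u * star u = 1 := Unitary.mul_star_self_of_mem hu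
  have hrc := rf_cont δ
  have hwc := wf_cont hδ
  set r := cfc (rf δ) y with hr
  have hrs : star r = r := by
    rw [hr, ← cfc_star]
    congr 1
    funext z
    unfold rf
    rw [Complex.star_def, Complex.conj_ofReal]
  -- `u` commutes with `cfc s y` for `s` constant on the disc
  have hcomm : ∀ s : ℂ → ℂ, Continuous s → (∀ z, ‖z‖ ≤ δ → s z = s 0) →
      u * cfc s y = cfc s y * u := by
    intro s hs hs0
    have h1 := hP (fun z => s z - s 0) (by fun_prop)
      (fun z hz => by rw [hs0 z hz, sub_self])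
    have h2 : cfc (fun z => s z - s 0) y = cfc s y - algebraMap ℂ A (s 0) := by
      rw [cfc_sub (fun z => s z) (fun _ => s 0) y, cfc_const (s 0) y]
    rw [h2] at h1
    have h3 := h1.1.trans h1.2.symm
    rw [mul_sub, sub_mul] at h3
    have h4 : u * algebraMap ℂ A (s 0) = algebraMap ℂ A (s 0) * u :=
      (Algebra.commutes (s 0) u).symm
    rw [h4] at h3
    exact sub_left_injective h3
  have hr0 : ∀ z : ℂ, ‖z‖ ≤ δ → rf δ z = rf δ 0 := by
    intro z hz
    unfold rf
    rw [max_eq_right hz, norm_zero, max_eq_right hδ.le]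
  have hur : u * r = r * u := hcomm _ hrc hr0
  have hss : star (u * r) * (u * r) = r * r := by
    rw [star_mul, hrs, mul_assoc, ← mul_assoc (star u), huu, one_mul]
  have hnorm : IsStarNormal (u * r) := by
    refine ⟨?_⟩
    change star (u * r) * (u * r) = (u * r) * star (u * r)
    rw [hss, star_mul, hrs, hur, mul_assoc r u, ← mul_assoc u r, hur, mul_assoc r u, huu', mul_one]
  refine ⟨hnorm, ?_, ?_⟩
  · -- the distance
    have h1 : y = cfc (wf δ) y * r := by
      rw [hr, ← cfc_mul (wf δ) (rf δ) y]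
      have : (fun z => wf δ z * rf δ z) = fun z => z := by
        funext z; exact wf_mul_rf hδ z
      rw [this, cfc_id' ℂ y]
    have h2 : u * r - y = (δ : ℂ) • (u - cfc (wf δ) y) := by
      have h3 := (hP (fun z => rf δ z - δ) (by fun_prop) (fun z hz => by
        unfold rf; rw [max_eq_right hz, sub_self])).1
      have h4 : cfc (fun z => rf δ z - δ) y = r - algebraMap ℂ A δ := by
        rw [cfc_sub (fun z => rf δ z) (fun _ => (δ : ℂ)) y, cfc_const (δ : ℂ) y]
      have h5 : cfc (fun z => wf δ z * (rf δ z - δ)) y = cfc (wf δ) y * (r - algebraMap ℂ A δ) := by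
        rw [← h4, ← cfc_mul (wf δ) (fun z => rf δ z - δ) y]
      rw [h4, h5, mul_sub, mul_sub, ← h1] at h3
      have h6 : u * algebraMap ℂ A δ = (δ : ℂ) • u := by
        rw [← Algebra.commutes, Algebra.smul_def]
      have h7 : cfc (wf δ) y * algebraMap ℂ A δ = (δ : ℂ) • cfc (wf δ) y := by
        rw [← Algebra.commutes, Algebra.smul_def]
      rw [h6, h7] at h3
      rw [smul_sub]
      have := h3
      rw [sub_eq_sub_iff_add_eq_add] at this ⊢
      rw [this]
      abel
    rw [h2, norm_smul, Complex.norm_real, Real.norm_of_nonneg hδ.le]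
    have h8 : ‖u‖ ≤ 1 := by
      rcases subsingleton_or_nontrivial A with hA | hA
      · rw [Subsingleton.elim u 0, norm_zero]; exact zero_le_one
      · exact (CStarRing.norm_of_mem_unitary hu).le
    have h9 : ‖cfc (wf δ) y‖ ≤ 1 := norm_cfc_le zero_le_one fun z _ => norm_wf_le hδ z
    have := (norm_sub_le u (cfc (wf δ) y)).trans (add_le_add h8 h9)
    nlinarith
  · -- the shrinking map
    have hc2 : Continuous fun z : ℂ => ((max (Real.sqrt ‖z‖) δ : ℝ) : ℂ) := by
      have := Real.continuous_sqrt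
      fun_prop
    have h1 : cfc (rf δ) (u * r) = r := by
      have e1 : rf δ = (fun z : ℂ => ((max (Real.sqrt ‖z‖) δ : ℝ) : ℂ)) ∘
          (fun z => star z * z) := by
        funext z
        unfold rf
        simp only [Function.comp]
        rw [norm_mul, norm_star, Real.sqrt_mul_self (norm_nonneg z)]
      have e2 : cfc (fun z : ℂ => star z * z) (u * r) = r * r := by
        rw [cfc_mul (fun z : ℂ => star z) (fun z => z) (u * r) continuous_star.continuousOn
          continuousOn_id, cfc_star_id (u * r), cfc_id' ℂ (u * r), hss]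
      have e3 : r * r = cfc (fun z => rf δ z * rf δ z) y := by
        rw [hr, ← cfc_mul (rf δ) (rf δ) y]
      rw [e1, cfc_comp (fun z : ℂ => ((max (Real.sqrt ‖z‖) δ : ℝ) : ℂ)) (fun z => star z * z)
        (u * r) hnorm hc2.continuousOn (by fun_prop), e2, e3,
        ← cfc_comp' (fun z : ℂ => ((max (Real.sqrt ‖z‖) δ : ℝ) : ℂ)) (fun z => rf δ z * rf δ z) y
          hc2.continuousOn (hrc.mul hrc).continuousOn hy]
      rw [hr]
      congr 1
      funext z
      unfold rf
      have h0 : 0 < max ‖z‖ δ := lt_max_of_lt_right hδ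
      rw [norm_mul, Complex.norm_real, Real.norm_of_nonneg h0.le, Real.sqrt_mul_self h0.le,
        max_eq_left (le_max_right _ _)]
    have h2 : cfc (wf δ) (u * r) = u := by
      have e1 : cfc (wf δ) (u * r) * cfc (rf δ) (u * r) = u * r := by
        rw [← cfc_mul (wf δ) (rf δ) (u * r)]
        have : (fun z => wf δ z * rf δ z) = fun z => z := by
          funext z; exact wf_mul_rf hδ z
        rw [this, cfc_id' ℂ (u * r)]
      rw [h1] at e1
      have hunit : IsUnit r := by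
        rw [hr, isUnit_cfc_iff (rf δ) y]
        exact fun z _ => rf_ne hδ z
      exact hunit.mul_right_cancel e1
    have h3 : cfc (fun z => z - δ * wf δ z) (u * r) = u * r - (δ : ℂ) • u := by
      rw [cfc_sub (fun z => z) (fun z => δ * wf δ z) (u * r), cfc_id' ℂ (u * r),
        cfc_const_mul (δ : ℂ) (wf δ) (u * r), h2]
    have h4 : cfc (fun z => z - δ * wf δ z) y = y - (δ : ℂ) • cfc (wf δ) y := by
      rw [cfc_sub (fun z => z) (fun z => δ * wf δ z) y, cfc_id' ℂ y,
        cfc_const_mul (δ : ℂ) (wf δ) y]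
    rw [h3, h4]
    have h1 : y = cfc (wf δ) y * r := by
      rw [hr, ← cfc_mul (wf δ) (rf δ) y]
      have : (fun z => wf δ z * rf δ z) = fun z => z := by
        funext z; exact wf_mul_rf hδ z
      rw [this, cfc_id' ℂ y]
    have h3 := (hP (fun z => rf δ z - δ) (by fun_prop) (fun z hz => by
      unfold rf; rw [max_eq_right hz, sub_self])).1
    have h4 : cfc (fun z => rf δ z - δ) y = r - algebraMap ℂ A δ := by
      rw [cfc_sub (fun z => rf δ z) (fun _ => (δ : ℂ)) y, cfc_const (δ : ℂ) y]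
    have h5 : cfc (fun z => wf δ z * (rf δ z - δ)) y = cfc (wf δ) y * (r - algebraMap ℂ A δ) := by
      rw [← h4, ← cfc_mul (wf δ) (fun z => rf δ z - δ) y]
    rw [h4, h5, mul_sub, mul_sub, ← h1] at h3
    have h6 : u * algebraMap ℂ A δ = (δ : ℂ) • u := by
      rw [← Algebra.commutes, Algebra.smul_def]
    have h7 : cfc (wf δ) y * algebraMap ℂ A δ = (δ : ℂ) • cfc (wf δ) y := by
      rw [← Algebra.commutes, Algebra.smul_def]
    rw [h6, h7] at h3
    exact h3

/-- the shrinking map is injective away from the disc -/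
lemma shrink_inj {δ : ℝ} (hδ : 0 < δ) {z z' : ℂ} (hz : δ < ‖z‖)
    (h : z' - δ * wf δ z' = z - δ * wf δ z) : z' = z := by
  have key : ∀ x : ℂ, x - δ * wf δ x = ((1 - δ / max ‖x‖ δ : ℝ) : ℂ) * x := by
    intro x
    unfold wf rf
    push_cast
    ring
  have hn : ∀ x : ℂ, δ < ‖x‖ → ‖x - δ * wf δ x‖ = ‖x‖ - δ := by
    intro x hx
    have h0 : 0 < ‖x‖ := hδ.trans hx
    rw [key, norm_mul, Complex.norm_real, max_eq_left hx.le, Real.norm_of_nonneg]
    · field_simp
    · rw [sub_nonneg, div_le_one h0]; exact hx.le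
  have hz' : δ < ‖z'‖ := by
    by_contra hcon
    push Not at hcon
    have h1 : z' - δ * wf δ z' = 0 := by
      rw [key, max_eq_right hcon, div_self hδ.ne', sub_self, Complex.ofReal_zero, zero_mul]
    have h2 := hn z hz
    rw [← h, h1, norm_zero] at h2
    linarith
  have h1 := hn z hz
  have h2 := hn z' hz'
  rw [h, h1] at h2
  have h3 : ‖z'‖ = ‖z‖ := by linarith
  rw [key, key, h3] at h
  have h4 : ((1 - δ / max ‖z‖ δ : ℝ) : ℂ) ≠ 0 := by
    have h0 : 0 < ‖z‖ := hδ.trans hz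
    rw [max_eq_left hz.le]
    have : (1 - δ / ‖z‖ : ℝ) ≠ 0 := by
      have : δ / ‖z‖ < 1 := (div_lt_one h0).2 hz
      linarith
    exact_mod_cast this
  exact mul_left_cancel₀ h4 h

lemma mem_spectrum_sub (b : A) (μ ν : ℂ) :
    ν ∈ spectrum ℂ (b - algebraMap ℂ A μ) ↔ ν + μ ∈ spectrum ℂ b := by
  rw [spectrum.mem_iff, spectrum.mem_iff]
  have : algebraMap ℂ A ν - (b - algebraMap ℂ A μ) = algebraMap ℂ A (ν + μ) - b := by
    rw [map_add]; abel
  rw [this]

lemma normal_sub_alg {b : A} (hb : IsStarNormal b) (μ : ℂ) :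
    IsStarNormal (b - algebraMap ℂ A μ) := by
  refine ⟨?_⟩
  have h := hb.star_comm_self
  have h1 : star (b - algebraMap ℂ A μ) = star b - algebraMap ℂ A (star μ) := by
    rw [star_sub, algebraMap_star_comm]
  rw [h1]
  exact ((h.sub_right (Algebra.commute_algebraMap_right _ _)).sub_left
    (Algebra.commute_algebraMap_left _ _))

lemma normal_add_alg {b : A} (hb : IsStarNormal b) (μ : ℂ) :
    IsStarNormal (b + algebraMap ℂ A μ) := by
  have := normal_sub_alg hb (-μ)
  rwa [map_neg, sub_neg_eq_add] at this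

lemma lft_rf (hG : Good B A π) {y : A} (hy : IsStarNormal y) {δ : ℝ} (hδ : 0 < δ) :
    Lft π (cfc (rf δ) y) := by
  have h1 : rf δ = fun z => Complex.exp ((Real.log (max ‖z‖ δ) : ℝ) : ℂ) := by
    funext z
    have : 0 < max ‖z‖ δ := lt_max_of_lt_right hδ
    rw [← Complex.ofReal_exp, Real.exp_log this]
    rfl
  rw [h1]
  refine lft_cfc_exp hG hy _ (Continuous.continuousOn ?_)
  refine Complex.continuous_ofReal.comp (Continuous.log (by fun_prop) fun z => ?_)
  exact (lt_max_of_lt_right hδ).ne'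

open Filter in
lemma step (hG : Good B A π) {b : A} (hb : IsStarNormal b) {μ₀ : ℂ} (h0 : μ₀ ∈ spectrum ℂ b)
    {ε : ℝ} (hε : 0 < ε) (Λ : Finset ℂ) :
    ∃ b' : A, IsStarNormal b' ∧ ‖b' - b‖ ≤ ε ∧ Lft π (b' - algebraMap ℂ A μ₀) ∧
      ∀ μ ∈ Λ, μ ≠ μ₀ → μ ∈ spectrum ℂ b → μ ∈ spectrum ℂ b' := by
  obtain ⟨δ, hδ, hδε, hδΛ⟩ : ∃ δ : ℝ, 0 < δ ∧ 2 * δ ≤ ε ∧ ∀ μ ∈ Λ, μ ≠ μ₀ → δ < ‖μ - μ₀‖ := by
    have h1 : ∀ᶠ δ : ℝ in nhdsWithin 0 (Set.Ioi 0), 0 < δ := self_mem_nhdsWithin
    have h2 : ∀ᶠ δ : ℝ in nhdsWithin 0 (Set.Ioi 0), δ < ε / 2 :=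
      mem_nhdsWithin_of_mem_nhds (Iio_mem_nhds (by positivity))
    have h3 : ∀ᶠ δ : ℝ in nhdsWithin 0 (Set.Ioi 0), ∀ μ ∈ Λ, μ ≠ μ₀ → δ < ‖μ - μ₀‖ := by
      rw [Filter.eventually_all_finset]
      intro μ _
      by_cases h : μ = μ₀
      · exact Eventually.of_forall fun δ hne => absurd h hne
      · have : 0 < ‖μ - μ₀‖ := norm_pos_iff.2 (sub_ne_zero.2 h)
        filter_upwards [mem_nhdsWithin_of_mem_nhds (Iio_mem_nhds this)] with δ hδ _
        exact hδ
    obtain ⟨δ, a1, a2, a3⟩ := (h1.and (h2.and h3)).exists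
    exact ⟨δ, a1, by linarith, a3⟩
  have hy := normal_sub_alg hb μ₀
  set y := b - algebraMap ℂ A μ₀ with hydef
  have hy0 : ¬ IsUnit y := by
    rw [spectrum.mem_iff] at h0
    intro hcon
    apply h0
    rw [hydef] at hcon
    have := hcon.neg
    rwa [neg_sub] at this
  obtain ⟨U, hU, hP⟩ := exists_pol hG hy hy0 hδ
  have hu : π U ∈ unitary A := by
    rw [Unitary.mem_iff] at hU ⊢
    rw [← map_star, ← map_mul, ← map_mul, hU.1, hU.2, map_one]
    exact ⟨rfl, rfl⟩
  obtain ⟨n1, n2, n3⟩ := push hy hu hδ hP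
  have hc : Continuous fun z : ℂ => z - δ * wf δ z := by
    have := wf_cont hδ
    fun_prop
  refine ⟨π U * cfc (rf δ) y + algebraMap ℂ A μ₀, normal_add_alg n1 μ₀, ?_, ?_, ?_⟩
  · have : π U * cfc (rf δ) y + algebraMap ℂ A μ₀ - b = π U * cfc (rf δ) y - y := by
      rw [hydef]; abel
    rw [this]
    exact n2.trans hδε
  · rw [add_sub_cancel_right]
    exact lft_mul (lft_unitary hU) (lft_rf hG hy hδ)
  · intro μ hμ hne hsp
    have h1 : μ - μ₀ ∈ spectrum ℂ y := by
      rw [hydef, mem_spectrum_sub, sub_add_cancel]; exact hsp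
    have h2 : (μ - μ₀) - δ * wf δ (μ - μ₀) ∈
        spectrum ℂ (cfc (fun z => z - δ * wf δ z) (π U * cfc (rf δ) y)) := by
      rw [n3, cfc_map_spectrum (fun z => z - δ * wf δ z) y hy hc.continuousOn]
      exact ⟨_, h1, rfl⟩
    rw [cfc_map_spectrum (fun z => z - δ * wf δ z) _ n1 hc.continuousOn] at h2
    obtain ⟨ν, hν, hν2⟩ := h2
    have h3 := shrink_inj hδ (hδΛ μ hμ hne) hν2
    rw [h3] at hν
    have h4 : π U * cfc (rf δ) y = π U * cfc (rf δ) y + algebraMap ℂ A μ₀ - algebraMap ℂ A μ₀ := by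
      rw [add_sub_cancel_right]
    rw [h4, mem_spectrum_sub, sub_add_cancel] at hν
    exact hν

open Filter in
/-- Module PUNCT of the project BDFP. -/
theorem punct : PunctStmt := by
  intro B A _ _ π hG b hb Λ hΛ ε hε
  have key : ∀ s : Finset ℂ, s ⊆ Λ → ∀ ε : ℝ, 0 < ε → ∃ b' : A, IsStarNormal b' ∧
      ‖b' - b‖ ≤ ε ∧ (∀ μ ∈ s, Lft π (b' - algebraMap ℂ A μ)) ∧
      ∀ μ ∈ Λ, μ ∉ spectrum ℂ b' → Lft π (b' - algebraMap ℂ A μ) := by
    intro s
    induction s using Finset.induction_on with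
    | empty =>
      intro _ ε hε
      exact ⟨b, hb, by rw [sub_self, norm_zero]; exact hε.le, by simp, hΛ⟩
    | insert μ₀ s _ ih =>
      intro hs ε hε
      obtain ⟨b1, n1, d1, l1, m1⟩ := ih (fun x hx => hs (Finset.mem_insert_of_mem hx)) (ε / 2)
        (by positivity)
      have hμΛ : μ₀ ∈ Λ := hs (Finset.mem_insert_self _ _)
      by_cases h0 : μ₀ ∈ spectrum ℂ b1
      · obtain ⟨ε', hε', hε2, hlft⟩ : ∃ ε' : ℝ, 0 < ε' ∧ ε' ≤ ε / 2 ∧ ∀ μ ∈ Λ,
            Lft π (b1 - algebraMap ℂ A μ) → ∀ a' : A, ‖a' - (b1 - algebraMap ℂ A μ)‖ ≤ ε' →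
              Lft π a' := by
          have h1 : ∀ᶠ δ : ℝ in nhdsWithin 0 (Set.Ioi 0), 0 < δ := self_mem_nhdsWithin
          have h2 : ∀ᶠ δ : ℝ in nhdsWithin 0 (Set.Ioi 0), δ < ε / 2 :=
            mem_nhdsWithin_of_mem_nhds (Iio_mem_nhds (by positivity))
          have h3 : ∀ᶠ δ : ℝ in nhdsWithin 0 (Set.Ioi 0), ∀ μ ∈ Λ,
              Lft π (b1 - algebraMap ℂ A μ) → ∀ a' : A, ‖a' - (b1 - algebraMap ℂ A μ)‖ ≤ δ →
                Lft π a' := by
            rw [Filter.eventually_all_finset]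
            intro μ _
            by_cases h : Lft π (b1 - algebraMap ℂ A μ)
            · obtain ⟨ρ, hρ, hρ2⟩ := lft_open hG h
              filter_upwards [mem_nhdsWithin_of_mem_nhds (Iio_mem_nhds hρ)] with δ hδ _ a' ha'
              exact hρ2 a' (ha'.trans_lt hδ)
            · exact Eventually.of_forall fun δ hh => absurd hh h
          obtain ⟨δ, a1, a2, a3⟩ := (h1.and (h2.and h3)).exists
          exact ⟨δ, a1, a2.le, a3⟩
        obtain ⟨b2, n2, d2, l2, m2⟩ := step hG n1 h0 hε' Λ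
        have hkeep : ∀ μ ∈ Λ, Lft π (b1 - algebraMap ℂ A μ) → Lft π (b2 - algebraMap ℂ A μ) := by
          intro μ hμ h
          refine hlft μ hμ h _ ?_
          have : b2 - algebraMap ℂ A μ - (b1 - algebraMap ℂ A μ) = b2 - b1 := by abel
          rw [this]; exact d2
        refine ⟨b2, n2, ?_, ?_, ?_⟩
        · calc ‖b2 - b‖ = ‖(b2 - b1) + (b1 - b)‖ := by congr 1; abel
            _ ≤ ‖b2 - b1‖ + ‖b1 - b‖ := norm_add_le _ _
            _ ≤ ε := by linarith
        · intro μ hμ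
          rcases Finset.mem_insert.1 hμ with rfl | h
          · exact l2
          · exact hkeep μ (hs (Finset.mem_insert_of_mem h)) (l1 μ h)
        · intro μ hμ hsp
          by_cases hμ0 : μ = μ₀
          · rw [hμ0]; exact l2
          · by_cases hμ1 : μ ∈ spectrum ℂ b1
            · exact absurd (m2 μ hμ hμ0 hμ1) hsp
            · exact hkeep μ hμ (m1 μ hμ hμ1)
      · refine ⟨b1, n1, by linarith, ?_, m1⟩
        intro μ hμ
        rcases Finset.mem_insert.1 hμ with rfl | h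
        · exact m1 _ hμΛ h0
        · exact l1 μ h
  obtain ⟨b', n, d, l, _⟩ := key Λ (Finset.Subset.refl _) ε hε
  exact ⟨b', n, d, l⟩

end Pool.Agent.H24.BDFP
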